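import Pool.Agent.H7.KC.Stmts
import Pool.Agent.H46.GU.BDAgen

/-!
Board kc15 (MP_fd41b2_co), row BGJ, helper85: many vertices of small degree, copy of `BDA_gen` (helper46) with a
disjunction as hypothesis.
-/

set_option autoImplicit false

open Finset

namespace Pool.KC7

open Pool.Agent.H23.KT Pool.Agent.H46.KW Pool.KQ Pool.GT7 Pool.GU7 Pool.HZ7 Pool.IA7

open Pool.GU7.BDAgen

theorem bgj_thm (hSPL : SPLStmt) (hZYG : ZYGStmt) (hTTR : TTRStmt) : BGJStmt := by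
  intro p w r m th g hr hm hg0 a₁ hg K₁ hK₁ a₂ hN
  have hc0 : (0 : ℝ) ≤ ((p + 2).choose (w + 1) : ℝ) := Nat.cast_nonneg _
  refine ⟨((p + 2).choose (w + 1) : ℝ) * (r + K₁) + 1, by positivity, ?_⟩
  intro δ C hδ
  obtain ⟨a₃, ha₃⟩ := exists_nat_ge (C * ((p : ℝ) + 3 + r) ^ w / δ)
  refine ⟨a₁ + a₂ + a₃ + 1, ?_⟩
  intro a ha V _ _ G hG z A hA hAs
  have ha1 : 1 ≤ a := by omega
  have haR : (1 : ℝ) ≤ (a : ℝ) := by exact_mod_cast ha1
  have ha0 : (0 : ℝ) ≤ (a : ℝ) := by linarith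
  set W : Finset V := nb G univ z with hW
  set c : ℝ := ((p + 2).choose (w + 1) : ℝ) with hc
  set D : ℕ := (p + 3) * a + r with hD
  have hcbW : CB G W (p + 3) := hG.cb.nb (mem_univ z)
  have hWD : W.card ≤ D := hG.deg z
  -- co = nb G W v
  have hco : ∀ v, Pool.KR.co G v z = nb G W v := by
    intro v
    ext x
    unfold Pool.KR.co
    rw [mem_nb, mem_nb, mem_nb, hW, mem_nb]
    simp only [mem_univ, true_and]
    exact and_comm
  have hcbv : ∀ v ∈ W, CB G (nb G W v) (p + 2) := fun v hv => hcbW.nb hv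
  -- kappa
  have hkap : ∀ v ∈ A, (kc G (nb G W v) (w + 1) : ℝ) ≤ c * (th * a) ^ (w + 1) := by
    intro v hv
    obtain ⟨e, P, U, -, -, -, hm1⟩ := hAs v hv
    rw [hco] at hm1
    refine kapb hZYG G p w _ (hcbv v (hA hv)) _ (hm1.trans ?_)
    calc m * (a : ℝ) ≤ (((p : ℝ) + 2) * th) * a := mul_le_mul_of_nonneg_right hm ha0
      _ = ((p : ℝ) + 2) * (th * a) := by ring
  -- sizes
  have hnW : A.card ≤ W.card := card_le_card hA
  have hnD : A.card ≤ D := hnW.trans hWD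
  set n : ℕ := A.card with hn
  set x : ℝ := (D : ℝ) - n with hx
  have hx0 : 0 ≤ x := by
    have : (n : ℝ) ≤ (D : ℝ) := by exact_mod_cast hnD
    linarith
  have hWA : ((W \ A).card : ℝ) ≤ x := by
    have h1 : (W \ A).card + A.card = W.card := card_sdiff_add_card_eq_card hA
    have h2 : ((W \ A).card : ℝ) + (n : ℝ) = (W.card : ℝ) := by exact_mod_cast h1
    have h3 : (W.card : ℝ) ≤ (D : ℝ) := by exact_mod_cast hWD
    linarith
  have hp3 : (0 : ℝ) < (p : ℝ) + 3 := by positivity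
  -- the identity of binomials
  have hbin : ((w : ℝ) + 2) * ((p + 3).choose (w + 2) : ℝ) = ((p : ℝ) + 3) * c := by
    have h1 := Nat.add_one_mul_choose_eq (p + 2) (w + 1)
    have h2 : ((p + 2 + 1 : ℕ) : ℝ) * ((p + 2).choose (w + 1) : ℝ) =
        ((p + 2 + 1).choose (w + 1 + 1) : ℝ) * ((w + 1 + 1 : ℕ) : ℝ) := by exact_mod_cast h1
    push_cast at h2
    rw [hc]
    have e1 : p + 2 + 1 = p + 3 := by ring
    have e2 : w + 1 + 1 = w + 2 := by ring
    rw [e1, e2] at h2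
    linarith
  -- cliques of W \ A
  have hrest : ((w : ℝ) + 2) * (kc G (W \ A) (w + 2) : ℝ) ≤
      c * (x * (x / ((p : ℝ) + 3)) ^ (w + 1)) := by
    have h1 := hZYG G (p + 3) (W \ A) (hcbW.mono sdiff_subset) (w + 2)
    have h2 : (((W \ A).card : ℝ) / ((p + 3 : ℕ) : ℝ)) ^ (w + 2) ≤ (x / ((p : ℝ) + 3)) ^ (w + 2) := by
      refine pow_le_pow_left₀ (by positivity) ?_ _
      push_cast
      exact div_le_div_of_nonneg_right hWA hp3.le
    have h3 : (kc G (W \ A) (w + 2) : ℝ) ≤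
        ((p + 3).choose (w + 2) : ℝ) * (x / ((p : ℝ) + 3)) ^ (w + 2) :=
      h1.trans (mul_le_mul_of_nonneg_left h2 (Nat.cast_nonneg _))
    calc ((w : ℝ) + 2) * (kc G (W \ A) (w + 2) : ℝ)
        ≤ ((w : ℝ) + 2) * (((p + 3).choose (w + 2) : ℝ) * (x / ((p : ℝ) + 3)) ^ (w + 2)) :=
          mul_le_mul_of_nonneg_left h3 (by positivity)
      _ = (((w : ℝ) + 2) * ((p + 3).choose (w + 2) : ℝ)) * (x / ((p : ℝ) + 3)) ^ (w + 2) := by ring
      _ = (((p : ℝ) + 3) * c) * (x / ((p : ℝ) + 3)) ^ (w + 2) := by rw [hbin]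
      _ = c * ((((p : ℝ) + 3) * (x / ((p : ℝ) + 3))) * (x / ((p : ℝ) + 3)) ^ (w + 1)) := by ring
      _ = c * (x * (x / ((p : ℝ) + 3)) ^ (w + 1)) := by
          rw [mul_div_cancel₀ _ hp3.ne']
  -- TT
  have hDR : (D : ℝ) = ((p : ℝ) + 3) * a + r := by rw [hD]; push_cast; ring
  have hTT : c * (((D : ℝ) - r) * (a : ℝ) ^ (w + 1)) ≤
      ((w : ℝ) + 2) * (TT (p + 3) (w + 2) a r : ℝ) := by
    have ht := (hTTR.2.2.1 (p + 3) (w + 2) a r (by omega)).1
    have ht' : ((p + 3).choose (w + 2) : ℝ) * (a : ℝ) ^ (w + 2) ≤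
        (TT (p + 3) (w + 2) a r : ℝ) := by exact_mod_cast ht
    calc c * (((D : ℝ) - r) * (a : ℝ) ^ (w + 1))
        = (((p : ℝ) + 3) * c) * (a : ℝ) ^ (w + 2) := by rw [hDR]; ring
      _ = ((w : ℝ) + 2) * (((p + 3).choose (w + 2) : ℝ) * (a : ℝ) ^ (w + 2)) := by
          rw [← hbin]; ring
      _ ≤ _ := mul_le_mul_of_nonneg_left ht' (by positivity)
  -- the left side
  have hleft : ∑ v ∈ A, (c * (a : ℝ) ^ (w + 1) - (kc G (Pool.KR.co G v z) (w + 1) : ℝ)) =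
      (n : ℝ) * (c * (a : ℝ) ^ (w + 1)) - ∑ v ∈ A, (kc G (nb G W v) (w + 1) : ℝ) := by
    rw [sum_sub_distrib, sum_const, nsmul_eq_mul]
    congr 1
    refine sum_congr rfl fun v _ => ?_
    rw [hco]
  rw [hleft]
  have hdf : ((w : ℝ) + 2) * df G p w r a W =
      ((w : ℝ) + 2) * (TT (p + 3) (w + 2) a r : ℝ) - ((w : ℝ) + 2) * (kc G W (w + 2) : ℝ) := by
    unfold df; ring
  have hapos : 0 ≤ (a : ℝ) ^ (w + 1) := pow_nonneg ha0 _
  set S : ℝ := ∑ v ∈ A, (kc G (nb G W v) (w + 1) : ℝ) with hSdef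
  have hNN := hN a (by omega) n hnD
  rcases hNN with h2 | h2
  · -- few vertices
    have h1 := (hSPL G W A (W \ A) ∅ w hA (Subset.refl _)
      (fun v _ y hy _ _ => hy)).1
    have h1' : ((w : ℝ) + 2) * (kc G W (w + 2) : ℝ) ≤ S +
        ((w : ℝ) + 2) * (kc G (W \ A) (w + 2) : ℝ) + ((w : ℝ) + 1) * S := by
      rw [hSdef]
      exact_mod_cast h1
    have h3 : ((w : ℝ) + 1) * S ≤ c * ((n : ℝ) * ((w : ℝ) + 1) * (th * (a : ℝ)) ^ (w + 1)) := by
      have : S ≤ (n : ℝ) * (c * (th * a) ^ (w + 1)) := by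
        rw [hSdef]
        refine (sum_le_sum hkap).trans (le_of_eq ?_)
        rw [sum_const, nsmul_eq_mul]
      calc ((w : ℝ) + 1) * S ≤ ((w : ℝ) + 1) * ((n : ℝ) * (c * (th * a) ^ (w + 1))) :=
            mul_le_mul_of_nonneg_left this (by positivity)
        _ = _ := by ring
    have h4 := mul_le_mul_of_nonneg_left h2 hc0
    have h5 : 0 ≤ δ * n * (a : ℝ) ^ (w + 1) := by positivity
    have h6 : c * (x * ((a : ℝ) ^ (w + 1) - (x / ((p : ℝ) + 3)) ^ (w + 1)) +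
        K₁ * (a : ℝ) ^ (w + 1)) = c * ((D : ℝ) * (a : ℝ) ^ (w + 1)) -
          (n : ℝ) * (c * (a : ℝ) ^ (w + 1)) - c * (x * (x / ((p : ℝ) + 3)) ^ (w + 1)) +
          c * K₁ * (a : ℝ) ^ (w + 1) := by
      rw [hx]; ring
    have h7 : c * (((D : ℝ) - r) * (a : ℝ) ^ (w + 1)) =
        c * ((D : ℝ) * (a : ℝ) ^ (w + 1)) - c * r * (a : ℝ) ^ (w + 1) := by ring
    have h8 : (c * (r + K₁) + 1) * (a : ℝ) ^ (w + 1) =
        c * r * (a : ℝ) ^ (w + 1) + c * K₁ * (a : ℝ) ^ (w + 1) + (a : ℝ) ^ (w + 1) := by ring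
    rw [h6] at h4
    rw [h8, hdf]
    rw [h7] at hTT
    linarith
  · -- many vertices
    classical
    choose! e P U hS he0 he1 hm1 using hAs
    set Dp : Finset (V × V) := A.biUnion (fun v => (U v).image (fun y => (v, y))) with hDp
    have hmemD : ∀ v ∈ A, ∀ y, (v, y) ∉ Dp → y ∉ U v := by
      intro v hv y hvy hy
      exact hvy (mem_biUnion.2 ⟨v, hv, mem_image.2 ⟨y, hy, rfl⟩⟩)
    set Y : Finset V := (W \ A).filter (fun y => ∃ v ∈ A, G.Adj v y ∧ (v, y) ∉ Dp) with hY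
    have h1 := (hSPL G W A Y Dp w hA (filter_subset _ _)
      (fun v hv y hy hvy hd => mem_filter.2 ⟨hy, v, hv, hvy, hd⟩)).2
    have h1' : ((w : ℝ) + 2) * (kc G W (w + 2) : ℝ) ≤ S +
        ((w : ℝ) + 2) * (kc G (W \ A) (w + 2) : ℝ) +
        ∑ y ∈ Y, (kc G (nb G W y) (w + 1) : ℝ) + (Dp.card : ℝ) * (W.card : ℝ) ^ w := by
      rw [hSdef]
      exact_mod_cast h1
    -- the vertices of Y
    have hYk : ∀ y ∈ Y, (kc G (nb G W y) (w + 1) : ℝ) ≤ c * (g * a) ^ (w + 1) := by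
      intro y hy
      obtain ⟨hyW, v, hv, hvy, hvd⟩ := mem_filter.1 hy
      have hyU := hmemD v hv y hvd
      have hyN : y ∈ nb G univ v := (mem_nb G).2 ⟨mem_univ y, hvy⟩
      obtain ⟨i, hi⟩ := (((hS v hv).cov y).1 hyN).resolve_left hyU
      have h3 := codeg G p a D (e v) C v z y (P v) (U v) (hS v hv) i hi (hG.deg y)
      refine kapb hZYG G p w _ (hcbv y (mem_sdiff.1 hyW).1) _ (h3.trans ?_)
      have h4 := hm1 v hv
      have h5 := he1 v hv
      have h6 := hg a (by omega)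
      have hb8 : ((p : ℝ) + 2) * ((e v + e1 p) * a) ≤ 1 / (8 * ((p : ℝ) + 3) ^ 2) * a := by
        have h7 : ((p : ℝ) + 2) * (e v + e1 p) ≤ 1 / (8 * ((p : ℝ) + 3) ^ 2) := by
          have h8 : ((p : ℝ) + 2) * (e v + e1 p) ≤ ((p : ℝ) + 3) * (2 * e1 p) := by
            have hE0 : 0 < e1 p := by unfold e1; positivity
            have := he0 v hv
            nlinarith
          refine h8.trans (le_of_eq ?_)
          unfold e1
          field_simp
          ring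
        calc ((p : ℝ) + 2) * ((e v + e1 p) * a) = (((p : ℝ) + 2) * (e v + e1 p)) * a := by ring
          _ ≤ _ := mul_le_mul_of_nonneg_right h7 ha0
      have h9 : ((p : ℝ) + 2) * ((1 - e v - e1 p) * a) =
          ((p : ℝ) + 2) * a - ((p : ℝ) + 2) * ((e v + e1 p) * a) := by ring
      rw [h9, hDR]
      nlinarith
    have hYc : (Y.card : ℝ) ≤ x := by
      refine le_trans ?_ hWA
      exact_mod_cast card_le_card (filter_subset _ _)
    have hYs : ∑ y ∈ Y, (kc G (nb G W y) (w + 1) : ℝ) ≤ x * (c * (g * a) ^ (w + 1)) := by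
      refine (sum_le_sum hYk).trans ?_
      rw [sum_const, nsmul_eq_mul]
      exact mul_le_mul_of_nonneg_right hYc (by positivity)
    -- dirty pairs
    have hDc : (Dp.card : ℝ) ≤ n * C := by
      have h3 : Dp.card ≤ ∑ v ∈ A, ((U v).image (fun y => (v, y))).card := card_biUnion_le
      have h4 : ((∑ v ∈ A, ((U v).image (fun y => (v, y))).card : ℕ) : ℝ) ≤ ∑ v ∈ A, C := by
        push_cast
        refine sum_le_sum fun v hv => ?_
        refine le_trans ?_ (hS v hv).cU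
        exact_mod_cast card_image_le
      rw [sum_const, nsmul_eq_mul] at h4
      exact le_trans (by exact_mod_cast h3) h4
    have hdirty : (Dp.card : ℝ) * (W.card : ℝ) ^ w ≤ δ * n * (a : ℝ) ^ (w + 1) := by
      have hWc : (W.card : ℝ) ≤ ((p : ℝ) + 3 + r) * a := by
        have h3 : (W.card : ℝ) ≤ (D : ℝ) := by exact_mod_cast hWD
        rw [hDR] at h3
        have h4 : (r : ℝ) ≤ r * a := by
          have : (0 : ℝ) ≤ r := Nat.cast_nonneg _
          nlinarith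
        linarith
      have h3 : (W.card : ℝ) ^ w ≤ (((p : ℝ) + 3 + r) * a) ^ w :=
        pow_le_pow_left₀ (Nat.cast_nonneg _) hWc _
      have h4 : C * ((p : ℝ) + 3 + r) ^ w ≤ δ * a := by
        have h5 : C * ((p : ℝ) + 3 + r) ^ w / δ ≤ a := by
          refine ha₃.trans ?_
          exact_mod_cast (by omega : a₃ ≤ a)
        rw [div_le_iff₀ hδ] at h5
        linarith
      calc (Dp.card : ℝ) * (W.card : ℝ) ^ w
          ≤ (Dp.card : ℝ) * (((p : ℝ) + 3 + r) * a) ^ w :=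
            mul_le_mul_of_nonneg_left h3 (Nat.cast_nonneg _)
        _ ≤ (n * C) * (((p : ℝ) + 3 + r) * a) ^ w :=
            mul_le_mul_of_nonneg_right hDc (by positivity)
        _ = (n : ℝ) * ((C * ((p : ℝ) + 3 + r) ^ w) * (a : ℝ) ^ w) := by rw [mul_pow]; ring
        _ ≤ (n : ℝ) * ((δ * a) * (a : ℝ) ^ w) := by
            refine mul_le_mul_of_nonneg_left ?_ (Nat.cast_nonneg _)
            exact mul_le_mul_of_nonneg_right h4 (by positivity)
        _ = δ * n * (a : ℝ) ^ (w + 1) := by ring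
    have h4 : x * (c * (g * a) ^ (w + 1)) ≤
        c * (x * (a : ℝ) ^ (w + 1)) - c * (x * (x / ((p : ℝ) + 3)) ^ (w + 1)) := by
      calc x * (c * (g * a) ^ (w + 1)) = (x * c) * (g * a) ^ (w + 1) := by ring
        _ ≤ (x * c) * ((a : ℝ) ^ (w + 1) - (x / ((p : ℝ) + 3)) ^ (w + 1)) :=
            mul_le_mul_of_nonneg_left h2 (by positivity)
        _ = _ := by ring
    have h6 : c * (x * (a : ℝ) ^ (w + 1)) = c * ((D : ℝ) * (a : ℝ) ^ (w + 1)) -
        (n : ℝ) * (c * (a : ℝ) ^ (w + 1)) := by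
      rw [hx]; ring
    have h7 : c * (((D : ℝ) - r) * (a : ℝ) ^ (w + 1)) =
        c * ((D : ℝ) * (a : ℝ) ^ (w + 1)) - c * r * (a : ℝ) ^ (w + 1) := by ring
    have h8 : (c * (r + K₁) + 1) * (a : ℝ) ^ (w + 1) =
        c * r * (a : ℝ) ^ (w + 1) + c * K₁ * (a : ℝ) ^ (w + 1) + (a : ℝ) ^ (w + 1) := by ring
    have h9 : 0 ≤ c * K₁ * (a : ℝ) ^ (w + 1) := by positivity
    rw [h8, hdf]
    rw [h7] at hTT
    linarith

end Pool.KC7
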